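import Pool.Agent.H486.LP.Stm2

/-!
# The Hecke recursion (`S_rec`)
-/

set_option autoImplicit false

open UpperHalfPlane MeasureTheory Metric ModularGroup CongruenceSubgroup
open scoped MatrixGroups ENNReal Modular Topology NNReal ComplexConjugate Real

namespace Pool.Agent.H585.LP

open Pool.Agent.N799.DT Pool.Agent.H486.LP

/-- reduction of matrices -/
noncomputable def rd (N : ℕ) : Mt →+* Matrix (Fin 2) (Fin 2) (ZMod N) :=
  (Int.castRingHom (ZMod N)).mapMatrix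

lemma rd_apply (N : ℕ) (A : Mt) (i j : Fin 2) : rd N A i j = ((A i j : ℤ) : ZMod N) := rfl

variable {Γ : Subgroup SL(2, ℤ)} {N : ℕ}

lemma mem_del {Q : ℕ} {A : Mt} : A ∈ Del Γ N Q ↔ A.det = (Q : ℤ) ^ 2 ∧
    ∃ γ ∈ Γ, rd N A = (Q : ZMod N) • rd N (γ : Mt) := by
  unfold Del
  constructor
  · rintro ⟨h1, γ, hγ, h⟩
    refine ⟨h1, γ, hγ, ?_⟩
    ext i j
    rw [Matrix.smul_apply, rd_apply, rd_apply, smul_eq_mul]
    have h2 := (ZMod.intCast_zmod_eq_zero_iff_dvd _ N).2 (h i j)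
    push_cast at h2
    exact sub_eq_zero.1 h2
  · rintro ⟨h1, γ, hγ, h⟩
    refine ⟨h1, γ, hγ, fun i j => ?_⟩
    have h2 := congrFun (congrFun h i) j
    rw [Matrix.smul_apply, rd_apply, rd_apply, smul_eq_mul] at h2
    apply (ZMod.intCast_zmod_eq_zero_iff_dvd _ N).1
    push_cast
    exact sub_eq_zero.2 h2

lemma rd_smul (d : ℤ) (A : Mt) : rd N (d • A) = (d : ZMod N) • rd N A := by
  ext i j
  rw [rd_apply, Matrix.smul_apply, Matrix.smul_apply, rd_apply, smul_eq_mul, smul_eq_mul]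
  push_cast
  rfl

lemma rd_adj (A : Mt) : rd N A.adjugate = (rd N A).adjugate := by
  unfold rd
  exact RingHom.map_adjugate _ _

lemma del_mul {a b : ℕ} {A B : Mt} (hA : A ∈ Del Γ N a) (hB : B ∈ Del Γ N b) :
    A * B ∈ Del Γ N (a * b) := by
  rw [mem_del] at hA hB ⊢
  obtain ⟨h1, γ, hγ, h2⟩ := hA
  obtain ⟨k1, δ, hδ, k2⟩ := hB
  refine ⟨?_, γ * δ, Γ.mul_mem hγ hδ, ?_⟩
  · rw [Matrix.det_mul, h1, k1]
    push_cast
    ring
  · rw [map_mul, h2, k2, Matrix.SpecialLinearGroup.coe_mul, map_mul, smul_mul_smul_comm]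
    push_cast
    rfl

lemma gamma_mem {γ : SL(2, ℤ)} (hγ : γ ∈ Γ) : (γ : Mt) ∈ Del Γ N 1 := by
  rw [mem_del]
  refine ⟨?_, γ, hγ, ?_⟩
  · rw [γ.det_coe]; norm_num
  · rw [Nat.cast_one, one_smul]

lemma gamma_mul {Q : ℕ} {γ : SL(2, ℤ)} (hγ : γ ∈ Γ) {A : Mt} (hA : A ∈ Del Γ N Q) :
    (γ : Mt) * A ∈ Del Γ N Q := by
  have := del_mul (gamma_mem (N := N) hγ) hA
  rwa [one_mul] at this

lemma adj_smul (d : ℤ) (A : Mt) : (d • A).adjugate = d • A.adjugate := by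
  rw [Matrix.adjugate_smul]
  simp

lemma adj_adj (A : Mt) : A.adjugate.adjugate = A := by
  rw [Matrix.adjugate_adjugate _ (by simp)]
  simp

lemma del_adj {Q : ℕ} {A : Mt} (hA : A ∈ Del Γ N Q) : A.adjugate ∈ Del Γ N Q := by
  rw [mem_del] at hA ⊢
  obtain ⟨h1, γ, hγ, h2⟩ := hA
  refine ⟨?_, γ⁻¹, Γ.inv_mem hγ, ?_⟩
  · rw [Matrix.det_adjugate, h1]
    simp
  · rw [rd_adj, h2, Matrix.adjugate_smul, Matrix.SpecialLinearGroup.coe_inv, rd_adj]
    simp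

lemma unit_of_coprime {d : ℕ} (hc : d.Coprime N) : IsUnit (d : ZMod N) :=
  (ZMod.isUnit_iff_coprime d N).2 hc

lemma del_div {d Q : ℕ} (hd : 0 < d) (hc : d.Coprime N) {A : Mt}
    (h : (d : ℤ) • A ∈ Del Γ N (d * Q)) : A ∈ Del Γ N Q := by
  rw [mem_del] at h ⊢
  obtain ⟨h1, γ, hγ, h2⟩ := h
  refine ⟨?_, γ, hγ, ?_⟩
  · rw [Matrix.det_smul, Fintype.card_fin] at h1
    have hd' : (d : ℤ) ^ 2 ≠ 0 := by positivity
    apply mul_left_cancel₀ hd'
    rw [h1]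
    push_cast
    ring
  · rw [rd_smul] at h2
    obtain ⟨u, hu⟩ := unit_of_coprime hc
    have h3 : (d : ZMod N) • rd N A = (d : ZMod N) • ((Q : ZMod N) • rd N (γ : Mt)) := by
      rw [smul_smul]
      push_cast at h2
      exact h2
    rw [← hu] at h3
    have h4 := congrArg (fun X => ((u⁻¹ : (ZMod N)ˣ) : ZMod N) • X) h3
    simp only [smul_smul, Units.inv_mul, one_smul] at h4
    rw [← mul_assoc, Units.inv_mul, one_mul] at h4
    exact h4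

lemma del_smul {d Q : ℕ} {A : Mt} (h : A ∈ Del Γ N Q) : (d : ℤ) • A ∈ Del Γ N (d * Q) := by
  rw [mem_del] at h ⊢
  obtain ⟨h1, γ, hγ, h2⟩ := h
  refine ⟨?_, γ, hγ, ?_⟩
  · rw [Matrix.det_smul, Fintype.card_fin, h1]
    push_cast
    ring
  · rw [rd_smul, h2, smul_smul]
    push_cast
    rfl

lemma cancel_right {A B C : Mt} (h : A.det ≠ 0) (e : B * A = C * A) : B = C := by
  have h1 : B * A * A.adjugate = C * A * A.adjugate := by rw [e]
  rw [Matrix.mul_assoc, Matrix.mul_assoc, Matrix.mul_adjugate, Matrix.mul_smul, Matrix.mul_smul,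
    Matrix.mul_one, Matrix.mul_one] at h1
  exact smul_right_injective _ h h1

lemma det_ne {Q : ℕ} (hQ : 0 < Q) {A : Mt} (hA : A ∈ Del Γ N Q) : A.det ≠ 0 := by
  rw [hA.1]
  positivity

/-- a matrix of determinant `Q ^ 2` is equivalent to an element of `Del` under `SL(2,ℤ)` -/
lemma full_ex (hN : 0 < N) {Q : ℕ} (hc : Q.Coprime N) {M : Mt} (hM : M.det = (Q : ℤ) ^ 2) :
    ∃ l : SL(2, ℤ), ((l⁻¹ : SL(2, ℤ)) : Mt) * M ∈ Del Γ N Q := by
  obtain ⟨u, hu⟩ := unit_of_coprime hc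
  set X : Matrix (Fin 2) (Fin 2) (ZMod N) := ((u⁻¹ : (ZMod N)ˣ) : ZMod N) • rd N M with hX
  have hdet : X.det = 1 := by
    have h1 : (rd N M).det = (u : ZMod N) ^ 2 := by
      have h2 : (rd N M).det = ((M.det : ℤ) : ZMod N) := by
        unfold rd
        exact ((Int.castRingHom (ZMod N)).map_det M).symm
      rw [h2, hM, hu]
      push_cast
      rfl
    rw [hX, Matrix.det_smul, Fintype.card_fin, h1, ← mul_pow, Units.inv_mul, one_pow]
  obtain ⟨l, hl⟩ := surj N hN ⟨X, hdet⟩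
  have hl' : rd N (l : Mt) = X := by
    have := congrArg (fun g : SL(2, ZMod N) => (g : Matrix (Fin 2) (Fin 2) (ZMod N))) hl
    exact this
  have hM' : rd N M = (Q : ZMod N) • rd N (l : Mt) := by
    rw [hl', hX, smul_smul, ← hu, Units.mul_inv, one_smul]
  refine ⟨l, ?_⟩
  rw [mem_del]
  refine ⟨?_, 1, Γ.one_mem, ?_⟩
  · rw [Matrix.det_mul, Matrix.SpecialLinearGroup.det_coe, one_mul, hM]
  · rw [map_mul, hM', Matrix.mul_smul, ← map_mul, ← Matrix.SpecialLinearGroup.coe_mul,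
      inv_mul_cancel]

/-- elements of `Del` which are equivalent under `SL(2,ℤ)` are equivalent under `Γ` -/
lemma full_uniq (hN' : Gamma N ≤ Γ) {Q : ℕ} (hc : Q.Coprime N) {A B : Mt}
    (hA : A ∈ Del Γ N Q) (hB : B ∈ Del Γ N Q) {g : SL(2, ℤ)} (e : A = (g : Mt) * B) : g ∈ Γ := by
  rw [mem_del] at hA hB
  obtain ⟨-, γ, hγ, h2⟩ := hA
  obtain ⟨-, δ, hδ, k2⟩ := hB
  obtain ⟨u, hu⟩ := unit_of_coprime hc
  have h3 : (Q : ZMod N) • rd N (γ : Mt) = (Q : ZMod N) • rd N ((g * δ : SL(2, ℤ)) : Mt) := by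
    rw [← h2, e, map_mul, k2, Matrix.mul_smul, ← map_mul, ← Matrix.SpecialLinearGroup.coe_mul]
  rw [← hu] at h3
  have h4 := congrArg (fun X => ((u⁻¹ : (ZMod N)ˣ) : ZMod N) • X) h3
  simp only [smul_smul, Units.inv_mul, one_smul] at h4
  have h5 : red N γ = red N (g * δ) := by
    apply Matrix.SpecialLinearGroup.ext
    intro i j
    exact congrFun (congrFun h4 i) j
  have h6 : γ⁻¹ * (g * δ) ∈ Gamma N := by
    rw [Gamma, MonoidHom.mem_ker]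
    have h7 : red N (γ⁻¹ * (g * δ)) = 1 := by
      rw [map_mul, map_inv, ← h5, inv_mul_cancel]
    exact h7
  have h8 : g = γ * (γ⁻¹ * (g * δ)) * δ⁻¹ := by group
  rw [h8]
  exact Γ.mul_mem (Γ.mul_mem hγ (hN' h6)) (Γ.inv_mem hδ)

/-! ### the action -/

lemma sQ_coe {Q : ℕ} (hQ : 0 < Q) {A : Mt} (hA : A.det = (Q : ℤ) ^ 2) :
    (sQ Q A : Matrix (Fin 2) (Fin 2) ℝ) = ((Q : ℝ)⁻¹) • A.map (fun a : ℤ => (a : ℝ)) := by
  have h : 0 < Q ∧ A.det = (Q : ℤ) ^ 2 := ⟨hQ, hA⟩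
  exact congrArg Subtype.val (dif_pos h)

lemma map_mul' (A B : Mt) : (A * B).map (fun a : ℤ => (a : ℝ)) =
    A.map (fun a : ℤ => (a : ℝ)) * B.map (fun a : ℤ => (a : ℝ)) := by
  have := Matrix.map_mul (L := A) (M := B) (f := Int.castRingHom ℝ)
  exact this

lemma sQ_mul {P Q : ℕ} (hP : 0 < P) (hQ : 0 < Q) {A B : Mt} (hA : A.det = (P : ℤ) ^ 2)
    (hB : B.det = (Q : ℤ) ^ 2) : sQ (P * Q) (A * B) = sQ P A * sQ Q B := by
  have hAB : (A * B).det = ((P * Q : ℕ) : ℤ) ^ 2 := by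
    rw [Matrix.det_mul, hA, hB]; push_cast; ring
  apply Subtype.ext
  have e1 := sQ_coe (Nat.mul_pos hP hQ) hAB
  have e2 := sQ_coe hP hA
  have e3 := sQ_coe hQ hB
  have e4 : ((sQ P A * sQ Q B : SL(2, ℝ)) : Matrix (Fin 2) (Fin 2) ℝ) =
    (sQ P A : Matrix (Fin 2) (Fin 2) ℝ) * (sQ Q B : Matrix (Fin 2) (Fin 2) ℝ) := rfl
  refine e1.trans (Eq.trans ?_ e4.symm)
  rw [e2, e3, map_mul', smul_mul_smul_comm]
  push_cast
  rw [mul_inv]

lemma sQ_one (γ : SL(2, ℤ)) (z : ℍ) : sQ 1 (γ : Mt) • z = γ • z := by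
  have h1 : sQ 1 (γ : Mt) = Matrix.SpecialLinearGroup.map (Int.castRingHom ℝ) γ := by
    apply Subtype.ext
    have e1 := sQ_coe one_pos (A := (γ : Mt)) (by rw [γ.det_coe]; norm_num)
    refine e1.trans ?_
    rw [Nat.cast_one, inv_one, one_smul]
    rfl
  rw [h1]
  rfl

lemma sQ_smul {d Q : ℕ} (hd : 0 < d) (hQ : 0 < Q) {A : Mt} (hA : A.det = (Q : ℤ) ^ 2) :
    sQ (d * Q) ((d : ℤ) • A) = sQ Q A := by
  have h1 : ((d : ℤ) • A).det = ((d * Q : ℕ) : ℤ) ^ 2 := by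
    rw [Matrix.det_smul, Fintype.card_fin, hA]
    push_cast
    ring
  apply Subtype.ext
  refine (sQ_coe (Nat.mul_pos hd hQ) h1).trans (Eq.trans ?_ (sQ_coe hQ hA).symm)
  ext i j
  simp only [Matrix.smul_apply, Matrix.map_apply, smul_eq_mul]
  have hd' : (d : ℝ) ≠ 0 := by positivity
  have hQ' : (Q : ℝ) ≠ 0 := by positivity
  push_cast
  field_simp

lemma f_gamma {f : ℍ → ℂ} (hf : ∀ γ ∈ Γ, ∀ z : ℍ, f (γ • z) = f z) {Q : ℕ} (hQ : 0 < Q) {A : Mt}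
    (hA : A.det = (Q : ℤ) ^ 2) {γ : SL(2, ℤ)} (hγ : γ ∈ Γ) (z : ℍ) :
    f (sQ Q ((γ : Mt) * A) • z) = f (sQ Q A • z) := by
  have h1 : sQ Q ((γ : Mt) * A) = sQ 1 (γ : Mt) * sQ Q A := by
    have := sQ_mul one_pos hQ (A := (γ : Mt)) (B := A) (by rw [γ.det_coe]; norm_num) hA
    rwa [one_mul] at this
  rw [h1, mul_smul, sQ_one, hf γ hγ]

/-! ### division of representatives by powers of `p` -/

/-- divisibility of all entries -/
def dv (d : ℤ) (A : Mt) : Prop := ∀ i j, d ∣ A i j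

noncomputable instance (d : ℤ) : DecidablePred (dv d) := Classical.decPred _

/-- division of all entries -/
def dvm (d : ℤ) (A : Mt) : Mt := fun i j => A i j / d

lemma smul_dvm {d : ℤ} {A : Mt} (h : dv d A) : d • dvm d A = A := by
  ext i j
  rw [Matrix.smul_apply, smul_eq_mul]
  exact Int.mul_ediv_cancel' (h i j)

lemma dvm_smul {d : ℤ} (hd : d ≠ 0) (A : Mt) : dvm d (d • A) = A := by
  ext i j
  show (d • A) i j / d = A i j
  rw [Matrix.smul_apply, smul_eq_mul, Int.mul_ediv_cancel_left _ hd]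

lemma dv_smul (d : ℤ) (A : Mt) : dv d (d • A) := by
  intro i j
  rw [Matrix.smul_apply, smul_eq_mul]
  exact dvd_mul_right _ _

lemma dv_iff {d : ℤ} {A : Mt} : dv d A ↔ ∃ B : Mt, A = d • B :=
  ⟨fun h => ⟨dvm d A, (smul_dvm h).symm⟩, by rintro ⟨B, rfl⟩; exact dv_smul d B⟩

lemma dv_adj {d : ℤ} {A : Mt} : dv d A.adjugate ↔ dv d A := by
  constructor
  · intro h
    obtain ⟨B, hB⟩ := dv_iff.1 h
    rw [dv_iff]
    refine ⟨B.adjugate, ?_⟩
    rw [← adj_smul, ← hB, adj_adj]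
  · intro h
    obtain ⟨B, hB⟩ := dv_iff.1 h
    rw [dv_iff]
    refine ⟨B.adjugate, ?_⟩
    rw [← adj_smul, ← hB]

lemma isRep_div {d Q : ℕ} (hd : 0 < d) (hc : d.Coprime N) {S : Finset Mt}
    (hS : IsRep Γ N (d * Q) S) :
    IsRep Γ N Q ((S.filter (dv (d : ℤ))).image (dvm (d : ℤ))) := by
  have hd' : (d : ℤ) ≠ 0 := by positivity
  constructor
  · intro A hA
    rw [Finset.mem_image] at hA
    obtain ⟨C, hC, rfl⟩ := hA
    rw [Finset.mem_filter] at hC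
    apply del_div hd hc
    rw [smul_dvm hC.2]
    exact hS.sub C hC.1
  · intro A hA
    obtain ⟨C, hC, γ, hγ, e⟩ := hS.ex _ (del_smul (d := d) hA)
    have h1 : C = (d : ℤ) • (((γ⁻¹ : SL(2, ℤ)) : Mt) * A) := by
      rw [← Matrix.mul_smul, e, ← Matrix.mul_assoc, ← Matrix.SpecialLinearGroup.coe_mul,
        inv_mul_cancel, Matrix.SpecialLinearGroup.coe_one, Matrix.one_mul]
    refine ⟨((γ⁻¹ : SL(2, ℤ)) : Mt) * A, ?_, γ, hγ, ?_⟩
    · rw [Finset.mem_image]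
      refine ⟨C, ?_, ?_⟩
      · rw [Finset.mem_filter]
        refine ⟨hC, ?_⟩
        rw [h1]
        exact dv_smul _ _
      · rw [h1, dvm_smul hd']
    · rw [← Matrix.mul_assoc, ← Matrix.SpecialLinearGroup.coe_mul, mul_inv_cancel,
        Matrix.SpecialLinearGroup.coe_one, Matrix.one_mul]
  · intro A hA B hB
    rintro ⟨γ, hγ, e⟩
    rw [Finset.mem_image] at hA hB
    obtain ⟨C, hC, rfl⟩ := hA
    obtain ⟨D, hD, rfl⟩ := hB
    rw [Finset.mem_filter] at hC hD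
    have h1 : C = (γ : Mt) * D := by
      rw [← smul_dvm hC.2, e, ← Matrix.mul_smul, smul_dvm hD.2]
    rw [hS.uniq C hC.1 D hD.1 ⟨γ, hγ, h1⟩]

lemma sum_div {d Q : ℕ} (hd : 0 < d) (hQ : 0 < Q) {S : Finset Mt}
    (hS : ∀ A ∈ S, A.det = ((d * Q : ℕ) : ℤ) ^ 2) (f : ℍ → ℂ) (z : ℍ) :
    ∑ A ∈ (S.filter (dv (d : ℤ))).image (dvm (d : ℤ)), f (sQ Q A • z) =
      ∑ C ∈ S.filter (dv (d : ℤ)), f (sQ (d * Q) C • z) := by
  have hd' : (d : ℤ) ≠ 0 := by positivity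
  rw [Finset.sum_image]
  · refine Finset.sum_congr rfl fun C hC => ?_
    rw [Finset.mem_filter] at hC
    have h1 : (dvm (d : ℤ) C).det = (Q : ℤ) ^ 2 := by
      have h2 := hS C hC.1
      rw [← smul_dvm hC.2, Matrix.det_smul, Fintype.card_fin] at h2
      have hd2 : (d : ℤ) ^ 2 ≠ 0 := by positivity
      apply mul_left_cancel₀ hd2
      rw [h2]
      push_cast
      ring
    have h3 := sQ_smul hd hQ h1
    rw [smul_dvm hC.2] at h3
    rw [h3]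
  · intro C hC D hD e
    rw [Finset.mem_coe, Finset.mem_filter] at hC hD
    rw [← smul_dvm hC.2, ← smul_dvm hD.2, e]

/-! ### the eigenvalues -/

lemma xs_eq {p : ℕ} (hp : 0 < p) (θ : ℝ) (m : ℕ) :
    xs p θ m = ((((p : ℝ) ^ (2 * θ)) ^ m)⁻¹) * ∑ j ∈ Finset.range (2 * m + 1),
      ((p : ℝ) ^ (2 * θ)) ^ j := by
  have hp' : (0 : ℝ) < p := by exact_mod_cast hp
  unfold xs
  rw [Finset.mul_sum]
  refine Finset.sum_congr rfl fun j _ => ?_
  rw [← Real.rpow_natCast ((p : ℝ) ^ (2 * θ)) m, ← Real.rpow_natCast ((p : ℝ) ^ (2 * θ)) j,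
    ← Real.rpow_mul hp'.le, ← Real.rpow_mul hp'.le, ← Real.rpow_neg hp'.le, ← Real.rpow_add hp']
  congr 1
  ring

lemma xs_zero (p : ℕ) (θ : ℝ) : xs p θ 0 = 1 := by
  unfold xs
  simp

lemma xs_rec {p : ℕ} (hp : 0 < p) (θ : ℝ) (n : ℕ) :
    xs p θ (n + 2) = xs p θ 1 * xs p θ (n + 1) - xs p θ (n + 1) - xs p θ n := by
  have hp' : (0 : ℝ) < p := by exact_mod_cast hp
  rw [xs_eq hp, xs_eq hp, xs_eq hp, xs_eq hp]
  set r : ℝ := (p : ℝ) ^ (2 * θ) with hr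
  have hr0 : r ≠ 0 := (Real.rpow_pos_of_pos hp' _).ne'
  set g : ℝ := ∑ j ∈ Finset.range (2 * n + 1), r ^ j with hg
  have e1 : ∑ j ∈ Finset.range (2 * (n + 1) + 1), r ^ j = g + r ^ (2 * n + 1) + r ^ (2 * n + 2) := by
    rw [show 2 * (n + 1) + 1 = (2 * n + 1) + 1 + 1 by ring, Finset.sum_range_succ,
      Finset.sum_range_succ]
  have e2 : ∑ j ∈ Finset.range (2 * (n + 2) + 1), r ^ j = g + r ^ (2 * n + 1) + r ^ (2 * n + 2) +
      r ^ (2 * n + 3) + r ^ (2 * n + 4) := by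
    rw [show 2 * (n + 2) + 1 = (2 * n + 1) + 1 + 1 + 1 + 1 by ring, Finset.sum_range_succ,
      Finset.sum_range_succ, Finset.sum_range_succ, Finset.sum_range_succ]
  have e3 : ∑ j ∈ Finset.range (2 * 1 + 1), r ^ j = 1 + r + r ^ 2 := by
    rw [show 2 * 1 + 1 = 3 by norm_num, Finset.sum_range_succ, Finset.sum_range_succ,
      Finset.sum_range_succ]
    simp
  rw [e1, e2, e3]
  have h1 : r ^ (n + 2) = r ^ n * r ^ 2 := pow_add _ _ _
  have h2 : r ^ (n + 1) = r ^ n * r := pow_succ _ _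
  rw [h1, h2]
  have hrn : r ^ n ≠ 0 := pow_ne_zero _ hr0
  field_simp
  ring

/-! ### the counting -/

lemma count {p m : ℕ} (hp : p.Prime) (hc : p.Coprime N) {S₁ S₂ S₃ : Finset Mt}
    (h1 : IsRep Γ N p S₁) (h2 : IsRep Γ N (p ^ m) S₂) (h3 : IsRep Γ N (p ^ (m + 1)) S₃)
    (c : Mt × Mt → Mt) (hcS : ∀ q ∈ S₁ ×ˢ S₂, c q ∈ S₃ ∧ ∃ γ ∈ Γ, q.2 * q.1 = (γ : Mt) * c q)
    {C : Mt} (hC : C ∈ S₃) :
    ((S₁ ×ˢ S₂).filter (fun q => c q = C)).card =
      (S₁.filter (fun A => dv ((p : ℤ) ^ 2) (A * C.adjugate))).card := by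
  have hp0 : 0 < p := hp.pos
  have hp2 : (p : ℤ) ^ 2 ≠ 0 := by positivity
  have hpm : 0 < p ^ m := by positivity
  refine Finset.card_bij (fun q _ => q.1) ?_ ?_ ?_
  · intro q hq
    rw [Finset.mem_filter] at hq ⊢
    obtain ⟨hq1, hq2⟩ := hq
    obtain ⟨hA, hB⟩ := Finset.mem_product.1 hq1
    refine ⟨hA, ?_⟩
    obtain ⟨-, γ, hγ, e⟩ := hcS q hq1
    rw [hq2] at e
    have e2 : C = ((γ⁻¹ : SL(2, ℤ)) : Mt) * (q.2 * q.1) := by
      rw [e, ← Matrix.mul_assoc, ← Matrix.SpecialLinearGroup.coe_mul,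
        inv_mul_cancel, Matrix.SpecialLinearGroup.coe_one, Matrix.one_mul]
    have hdet : q.1.det = (p : ℤ) ^ 2 := (h1.sub _ hA).1
    rw [dv_iff]
    refine ⟨q.2.adjugate * (((γ⁻¹ : SL(2, ℤ)) : Mt)).adjugate, ?_⟩
    rw [e2, Matrix.adjugate_mul_distrib, Matrix.adjugate_mul_distrib, ← Matrix.mul_assoc,
      ← Matrix.mul_assoc, Matrix.mul_adjugate, hdet, Matrix.smul_mul, Matrix.one_mul,
      Matrix.smul_mul]
  · intro q hq r hr e
    rw [Finset.mem_filter] at hq hr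
    obtain ⟨hq1, hq2⟩ := hq
    obtain ⟨hr1, hr2⟩ := hr
    obtain ⟨hA, hB⟩ := Finset.mem_product.1 hq1
    obtain ⟨hA', hB'⟩ := Finset.mem_product.1 hr1
    obtain ⟨-, γ, hγ, e1⟩ := hcS q hq1
    obtain ⟨-, δ, hδ, e2⟩ := hcS r hr1
    rw [hq2] at e1
    rw [hr2] at e2
    have e' : q.1 = r.1 := e
    have e3 : q.2 * q.1 = (((γ * δ⁻¹ : SL(2, ℤ)) : Mt) * r.2) * q.1 := by
      rw [Matrix.mul_assoc, e1]
      rw [e', e2, Matrix.SpecialLinearGroup.coe_mul, Matrix.mul_assoc,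
        ← Matrix.mul_assoc (((δ⁻¹ : SL(2, ℤ)) : Mt)), ← Matrix.SpecialLinearGroup.coe_mul,
        inv_mul_cancel, Matrix.SpecialLinearGroup.coe_one, Matrix.one_mul]
    have e4 := cancel_right (det_ne hp0 (h1.sub _ hA)) e3
    have e5 := h2.uniq _ hB _ hB' ⟨_, Γ.mul_mem hγ (Γ.inv_mem hδ), e4⟩
    exact Prod.ext e' e5
  · intro A hA
    rw [Finset.mem_filter] at hA
    obtain ⟨hA1, hA2⟩ := hA
    obtain ⟨X, hX⟩ := dv_iff.1 hA2
    have hdetA : A.det = (p : ℤ) ^ 2 := (h1.sub _ hA1).1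
    -- C = adj X * A
    have e1 : C.adjugate = A.adjugate * X := by
      have h4 : A.adjugate * (A * C.adjugate) = A.adjugate * ((p : ℤ) ^ 2 • X) := by rw [hX]
      rw [← Matrix.mul_assoc, Matrix.adjugate_mul, hdetA, Matrix.smul_mul, Matrix.one_mul,
        Matrix.mul_smul] at h4
      exact smul_right_injective _ hp2 h4
    have e2 : C = X.adjugate * A := by
      have h4 := congrArg Matrix.adjugate e1
      rw [adj_adj, Matrix.adjugate_mul_distrib, adj_adj] at h4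
      exact h4
    have hXm : X ∈ Del Γ N (p ^ m) := by
      have h4 : A * C.adjugate ∈ Del Γ N (p * p ^ (m + 1)) :=
        del_mul (h1.sub _ hA1) (del_adj (h3.sub _ hC))
      have h5 : p * p ^ (m + 1) = p ^ 2 * p ^ m := by ring
      rw [hX, h5] at h4
      apply del_div (d := p ^ 2) (by positivity) (Nat.Coprime.pow_left 2 hc)
      push_cast
      exact h4
    obtain ⟨B, hB, γ, hγ, e3⟩ := h2.ex _ (del_adj hXm)
    have hq1 : (A, B) ∈ S₁ ×ˢ S₂ := Finset.mem_product.2 ⟨hA1, hB⟩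
    refine ⟨(A, B), ?_, rfl⟩
    rw [Finset.mem_filter]
    refine ⟨hq1, ?_⟩
    obtain ⟨h6, δ, hδ, e4⟩ := hcS _ hq1
    have e4' : B * A = (δ : Mt) * c (A, B) := e4
    have e5 : C = ((γ * δ : SL(2, ℤ)) : Mt) * c (A, B) := by
      rw [e2, e3, Matrix.mul_assoc, e4', ← Matrix.mul_assoc, ← Matrix.SpecialLinearGroup.coe_mul]
    exact (h3.uniq _ hC _ h6 ⟨_, Γ.mul_mem hγ hδ, e5⟩).symm

/-! ### the recursion -/

lemma step (h : S_req) {p m : ℕ} (hN : 0 < N) (hΓ : Gamma N ≤ Γ) (hp : p.Prime)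
    (hc : p.Coprime N) (hm : 1 ≤ m) {f : ℍ → ℂ} (hf : ∀ γ ∈ Γ, ∀ z : ℍ, f (γ • z) = f z)
    {S₁ S₂ S₃ : Finset Mt}
    (h1 : IsRep Γ N p S₁) (h2 : IsRep Γ N (p ^ m) S₂) (h3 : IsRep Γ N (p ^ (m + 1)) S₃) (z : ℍ) :
    ∑ A ∈ S₁, ∑ B ∈ S₂, f (sQ (p ^ m) B • sQ p A • z) =
      ∑ C ∈ S₃, f (sQ (p ^ (m + 1)) C • z) +
      (p : ℂ) * ∑ C ∈ S₃.filter (dv (p : ℤ)), f (sQ (p ^ (m + 1)) C • z) +
      (p : ℂ) ^ 2 * ∑ C ∈ S₃.filter (dv ((p : ℤ) ^ 2)), f (sQ (p ^ (m + 1)) C • z) := by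
  have hp0 : 0 < p := hp.pos
  have hpm : 0 < p ^ m := by positivity
  have hpm1 : 0 < p ^ (m + 1) := by positivity
  have hex : ∀ q : Mt × Mt, ∃ C : Mt, q ∈ S₁ ×ˢ S₂ → C ∈ S₃ ∧ ∃ γ ∈ Γ, q.2 * q.1 = (γ : Mt) * C := by
    intro q
    by_cases hq : q ∈ S₁ ×ˢ S₂
    · obtain ⟨hA, hB⟩ := Finset.mem_product.1 hq
      have h4 := del_mul (h2.sub _ hB) (h1.sub _ hA)
      rw [← pow_succ] at h4
      obtain ⟨C, hC, γ, hγ, e⟩ := h3.ex _ h4
      exact ⟨C, fun _ => ⟨hC, γ, hγ, e⟩⟩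
    · exact ⟨0, fun h => absurd h hq⟩
  choose c hcS using hex
  have e1 : ∀ q ∈ S₁ ×ˢ S₂, f (sQ (p ^ m) q.2 • sQ p q.1 • z) =
      f (sQ (p ^ (m + 1)) (c q) • z) := by
    intro q hq
    obtain ⟨hA, hB⟩ := Finset.mem_product.1 hq
    obtain ⟨hC, γ, hγ, e⟩ := hcS q hq
    rw [← mul_smul, ← sQ_mul hpm hp0 (h2.sub _ hB).1 (h1.sub _ hA).1, ← pow_succ, e]
    exact f_gamma hf hpm1 (h3.sub _ hC).1 hγ z
  rw [← Finset.sum_product', Finset.sum_congr rfl e1,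
    ← Finset.sum_fiberwise_of_maps_to (t := S₃) (g := c) (fun q hq => (hcS q hq).1)]
  have e2 : ∀ C ∈ S₃, ∑ q ∈ (S₁ ×ˢ S₂) with c q = C, f (sQ (p ^ (m + 1)) (c q) • z) =
      (1 + (if dv (p : ℤ) C then (p : ℂ) else 0) + (if dv ((p : ℤ) ^ 2) C then (p : ℂ) ^ 2 else 0)) *
        f (sQ (p ^ (m + 1)) C • z) := by
    intro C hC
    have h5 : ∑ q ∈ (S₁ ×ˢ S₂) with c q = C, f (sQ (p ^ (m + 1)) (c q) • z) =
        ∑ q ∈ (S₁ ×ˢ S₂) with c q = C, f (sQ (p ^ (m + 1)) C • z) := by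
      refine Finset.sum_congr rfl fun q hq => ?_
      rw [(Finset.mem_filter.1 hq).2]
    rw [h5, Finset.sum_const, nsmul_eq_mul, count hp hc h1 h2 h3 c hcS hC]
    have h6 := h p m hp hm C.adjugate (by
        rw [Matrix.det_adjugate, (h3.sub _ hC).1, Fintype.card_fin]
        push_cast
        ring) S₁ (fun A hA => (h1.sub _ hA).1)
      (by
        intro A hA
        obtain ⟨l, hl⟩ := full_ex (Γ := Γ) hN hc hA
        obtain ⟨B, hB, γ, hγ, e⟩ := h1.ex _ hl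
        refine ⟨B, hB, l * γ, ?_⟩
        rw [Matrix.SpecialLinearGroup.coe_mul, Matrix.mul_assoc, ← e, ← Matrix.mul_assoc,
          ← Matrix.SpecialLinearGroup.coe_mul, mul_inv_cancel, Matrix.SpecialLinearGroup.coe_one,
          Matrix.one_mul])
      (by
        rintro A hA B hB ⟨g, e⟩
        exact h1.uniq A hA B hB ⟨g, full_uniq hΓ hc (h1.sub _ hA) (h1.sub _ hB) e, e⟩)
    have h7 : (S₁.filter (fun A => dv ((p : ℤ) ^ 2) (A * C.adjugate))).card =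
        ∑ i ∈ (Finset.range 3).filter (fun i => dv ((p : ℤ) ^ i) C.adjugate), p ^ i := by
      refine Eq.trans ?_ (h6.trans ?_)
      · congr 1
        ext A
        constructor
        · intro hA
          exact (@Finset.mem_filter _ _ _ _ _).2 ((@Finset.mem_filter _ _ _ _ _).1 hA)
        · intro hA
          exact (@Finset.mem_filter _ _ _ _ _).2 ((@Finset.mem_filter _ _ _ _ _).1 hA)
      · refine Finset.sum_congr ?_ fun _ _ => rfl
        ext i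
        constructor
        · intro hA
          exact (@Finset.mem_filter _ _ _ _ _).2 ((@Finset.mem_filter _ _ _ _ _).1 hA)
        · intro hA
          exact (@Finset.mem_filter _ _ _ _ _).2 ((@Finset.mem_filter _ _ _ _ _).1 hA)
    rw [h7]
    congr 1
    rw [Finset.sum_filter, Finset.sum_range_succ, Finset.sum_range_succ, Finset.sum_range_succ,
      Finset.sum_range_zero]
    have h8 : dv ((p : ℤ) ^ 0) C.adjugate := fun a b => by
      rw [pow_zero]; exact one_dvd _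
    have h9 : dv ((p : ℤ) ^ 1) C.adjugate ↔ dv (p : ℤ) C := by
      rw [pow_one, dv_adj]
    have h10 : dv ((p : ℤ) ^ 2) C.adjugate ↔ dv ((p : ℤ) ^ 2) C := dv_adj
    rw [if_pos h8, if_congr h9 rfl rfl, if_congr h10 rfl rfl]
    push_cast
    ring_nf
  rw [Finset.sum_congr rfl e2, Finset.sum_filter, Finset.sum_filter, Finset.mul_sum,
    Finset.mul_sum, ← Finset.sum_add_distrib, ← Finset.sum_add_distrib]
  refine Finset.sum_congr rfl fun C _ => ?_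
  split_ifs <;> ring_nf

lemma base {S : Finset Mt} (hΓ : Gamma N ≤ Γ) (hS : IsRep Γ N 1 S) {f : ℍ → ℂ}
    (hf : ∀ γ ∈ Γ, ∀ z : ℍ, f (γ • z) = f z) (z : ℍ) : ∑ A ∈ S, f (sQ 1 A • z) = f z := by
  have h1 : (1 : Mt) ∈ Del Γ N 1 := by
    have := gamma_mem (N := N) Γ.one_mem
    rwa [Matrix.SpecialLinearGroup.coe_one] at this
  have hcop : (1 : ℕ).Coprime N := Nat.coprime_one_left N
  have hall : ∀ A ∈ Del Γ N 1, ∃ γ ∈ Γ, A = (γ : Mt) := by
    intro A hA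
    have hdet : A.det = 1 := by rw [hA.1]; norm_num
    refine ⟨⟨A, hdet⟩, ?_, rfl⟩
    refine full_uniq hΓ hcop hA h1 (g := ⟨A, hdet⟩) ?_
    rw [Matrix.mul_one]
  obtain ⟨B, hB, γ, hγ, e⟩ := hS.ex _ h1
  have hSB : S = {B} := by
    rw [Finset.eq_singleton_iff_unique_mem]
    refine ⟨hB, fun A hA => ?_⟩
    obtain ⟨δ, hδ, e2⟩ := hall A (hS.sub _ hA)
    refine hS.uniq A hA B hB ⟨δ * γ, Γ.mul_mem hδ hγ, ?_⟩
    rw [Matrix.SpecialLinearGroup.coe_mul, Matrix.mul_assoc, ← e, Matrix.mul_one, e2]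
  obtain ⟨δ, hδ, e3⟩ := hall B (hS.sub _ hB)
  rw [hSB, Finset.sum_singleton, e3, sQ_one, hf δ hδ]

theorem p27 (h : S_req) (h8 : S_rep) : S_rec := by
  intro Γ N p hN hΓ hp hc f hf θ hyp
  have hp0 : 0 < p := hp.pos
  have key : ∀ m : ℕ, (∀ S : Finset Mt, IsRep Γ N (p ^ m) S → ∀ z : ℍ,
      ∑ A ∈ S, f (sQ (p ^ m) A • z) = (((p : ℝ) ^ m * xs p θ m : ℝ) : ℂ) * f z) ∧
      (∀ S : Finset Mt, IsRep Γ N (p ^ (m + 1)) S → ∀ z : ℍ,
      ∑ A ∈ S, f (sQ (p ^ (m + 1)) A • z) =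
        (((p : ℝ) ^ (m + 1) * xs p θ (m + 1) : ℝ) : ℂ) * f z) := by
    intro m
    induction m with
    | zero =>
      constructor
      · intro S hS z
        rw [pow_zero] at hS ⊢
        rw [base hΓ hS hf z, pow_zero, xs_zero]
        simp
      · intro S hS z
        rw [zero_add, pow_one] at hS ⊢
        rw [pow_one]
        exact hyp S hS z
    | succ n ih =>
      refine ⟨ih.2, ?_⟩
      intro S hS z
      obtain ⟨S₁, h1⟩ := h8 Γ N p hN hΓ hp0 hc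
      obtain ⟨S₂, h2⟩ := h8 Γ N (p ^ (n + 1)) hN hΓ (by positivity) (Nat.Coprime.pow_left _ hc)
      have hst := step h hN hΓ hp hc (Nat.le_add_left 1 n) hf h1 h2 hS z
      have e1 : ∑ A ∈ S₁, ∑ B ∈ S₂, f (sQ (p ^ (n + 1)) B • sQ p A • z) =
          (((p : ℝ) ^ (n + 1) * xs p θ (n + 1) : ℝ) : ℂ) *
            ((((p : ℝ) * xs p θ 1 : ℝ) : ℂ) * f z) := by
        rw [← hyp S₁ h1 z, Finset.mul_sum]
        refine Finset.sum_congr rfl fun A _ => ?_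
        exact ih.2 S₂ h2 _
      have e2 : ∑ C ∈ S.filter (dv (p : ℤ)), f (sQ (p ^ (n + 1 + 1)) C • z) =
          (((p : ℝ) ^ (n + 1) * xs p θ (n + 1) : ℝ) : ℂ) * f z := by
        have hpe : p ^ (n + 1 + 1) = p * p ^ (n + 1) := by ring
        rw [hpe] at hS ⊢
        rw [← sum_div hp0 (by positivity) (fun A hA => (hS.sub A hA).1) f z]
        exact ih.2 _ (isRep_div hp0 hc hS) z
      have e3 : ∑ C ∈ S.filter (dv ((p : ℤ) ^ 2)), f (sQ (p ^ (n + 1 + 1)) C • z) =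
          (((p : ℝ) ^ n * xs p θ n : ℝ) : ℂ) * f z := by
        have hpe : p ^ (n + 1 + 1) = p ^ 2 * p ^ n := by ring
        have hpz : ((p : ℤ) ^ 2) = ((p ^ 2 : ℕ) : ℤ) := by push_cast; rfl
        rw [hpe] at hS ⊢
        rw [hpz]
        rw [← sum_div (d := p ^ 2) (by positivity) (by positivity)
          (fun A hA => (hS.sub A hA).1) f z]
        exact ih.1 _ (isRep_div (d := p ^ 2) (by positivity) (Nat.Coprime.pow_left 2 hc) hS) z
      rw [e1, e2, e3] at hst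
      have hx := xs_rec hp0 θ n
      have hx' : (((p : ℝ) ^ (n + 1 + 1) * xs p θ (n + 1 + 1) : ℝ) : ℂ) =
          (((p : ℝ) ^ (n + 1) * xs p θ (n + 1) : ℝ) : ℂ) * (((p : ℝ) * xs p θ 1 : ℝ) : ℂ) -
          (p : ℂ) * (((p : ℝ) ^ (n + 1) * xs p θ (n + 1) : ℝ) : ℂ) -
          (p : ℂ) ^ 2 * (((p : ℝ) ^ n * xs p θ n : ℝ) : ℂ) := by
        rw [show n + 1 + 1 = n + 2 by ring, hx]
        push_cast
        ring
      rw [hx']
      linear_combination (-1 : ℂ) * hst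
  intro m S hS z
  exact (key m).1 S hS z

end Pool.Agent.H585.LP
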