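import Pool.Agent.H486.LP.Stm3

/-!
# LP-Q25: the optimisation of the length of the amplifier, general version
-/

set_option autoImplicit false

open scoped Real

namespace Pool.Agent.H585.LP

open Pool.Agent.H486.LP

theorem q25 : S_optX := by
  intro c hc0 hc2
  obtain ⟨a, ha⟩ : ∃ a : ℝ, a = 1 - c / 2 := ⟨_, rfl⟩
  have ha0 : 0 < a := by rw [ha]; linarith
  have ha1 : a < 1 := by rw [ha]; linarith
  obtain ⟨ε, hε⟩ : ∃ ε : ℝ, ε = a / 4 := ⟨_, rfl⟩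
  have hε0 : 0 < ε := by rw [hε]; positivity
  have hε1 : ε < 1 := by rw [hε]; linarith
  refine ⟨a / 4, by positivity, by linarith, ε, hε0, hε1, fun η₀ C hη₀ hC => ?_⟩
  obtain ⟨η, hηη⟩ : ∃ η : ℝ, η = η₀ / 2 := ⟨_, rfl⟩
  have hη : 0 < η := by rw [hηη]; positivity
  refine ⟨64 * ((32 / ε ^ 2) ^ 2 * (C * (1 + 8 / η ^ 2))), a / 32, η, by positivity, by positivity,
    by linarith, hη, ?_⟩
  intro n B W p hn hB hW hp hpn k θ X hθ hX hsum
  have hn0 : 0 < n := by linarith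
  have hp0 : (0 : ℝ) < p := by
    have : (2 : ℝ) ≤ p := by exact_mod_cast hp
    linarith
  have hp2 : (2 : ℝ) ≤ p := by exact_mod_cast hp
  set ℓ := Real.log n with hℓ
  set lam := Real.log p with hlam
  have hlog2 : (0.69 : ℝ) < Real.log 2 := lt_trans (by norm_num) Real.log_two_gt_d9
  have hl2 : Real.log 2 ≤ lam := Real.log_le_log (by norm_num) hp2
  have hlam0 : 0 < lam := by linarith
  have hlamℓ : lam ≤ a / 32 * ℓ := by
    have h1 := Real.log_le_log hp0 hpn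
    rwa [Real.log_rpow hn0] at h1
  have hℓ1 : 22 ≤ ℓ := by
    have h1 : 0.69 ≤ a / 32 * ℓ := by linarith
    have h2 : 0 < ℓ := by
      by_contra hcon
      have : a / 32 * ℓ ≤ 0 := mul_nonpos_of_nonneg_of_nonpos (by positivity) (by linarith)
      linarith
    have h3 : a / 32 * ℓ ≤ 1 / 32 * ℓ := by
      apply mul_le_mul_of_nonneg_right _ h2.le
      linarith
    linarith
  have hℓ0 : 0 < ℓ := by linarith
  have hlam2 : lam ≤ ℓ / 32 := by
    refine hlamℓ.trans ?_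
    have : a / 32 * ℓ ≤ 1 / 32 * ℓ := mul_le_mul_of_nonneg_right (by linarith) hℓ0.le
    linarith
  have hlog4 : Real.log 4 = 2 * Real.log 2 := by
    rw [show (4 : ℝ) = 2 ^ 2 by norm_num, Real.log_pow]
    norm_num
  -- the number `K`
  obtain ⟨y, hy⟩ : ∃ y : ℝ, y = ((1 - a / 4) * ℓ - Real.log 4) / (2 * lam) := ⟨_, rfl⟩
  have hy1 : 2 * lam * y = (1 - a / 4) * ℓ - Real.log 4 := by
    rw [hy]
    field_simp
  have haℓ : a * ℓ ≤ 1 * ℓ := mul_le_mul_of_nonneg_right ha1.le hℓ0.le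
  have haℓ0 : 0 ≤ a * ℓ := by positivity
  have hnum : 0 ≤ (1 - a / 4) * ℓ - Real.log 4 := by
    rw [hlog4]
    linarith
  have hy0 : 0 ≤ y := by
    rw [hy]
    exact div_nonneg hnum (by positivity)
  set K := ⌊y⌋₊ with hK
  have hKy : (K : ℝ) ≤ y := Nat.floor_le hy0
  have hKy1 : y < K + 1 := Nat.lt_floor_add_one y
  have hcond : 4 * (p : ℝ) ^ (2 * K) ≤ n ^ (1 - a / 4) := by
    have h1 : 4 * (p : ℝ) ^ (2 * K) = Real.exp (Real.log 4 + 2 * K * lam) := by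
      rw [Real.exp_add, Real.exp_log (by norm_num)]
      congr 1
      rw [← Real.rpow_natCast, Real.rpow_def_of_pos hp0]
      congr 1
      push_cast
      rw [hlam]
      ring
    rw [h1, Real.rpow_def_of_pos hn0]
    apply Real.exp_le_exp.2
    have : 2 * lam * K ≤ 2 * lam * y := mul_le_mul_of_nonneg_left hKy (by positivity)
    linarith
  have hmain := hsum K hcond
  -- lower bound
  have hKlow : (1 - a / 4 - a / 8) * ℓ ≤ 2 * K * lam := by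
    have h1 : 2 * lam * y ≤ 2 * lam * (K + 1) := mul_le_mul_of_nonneg_left hKy1.le (by positivity)
    linarith
  have hlow : ∀ i, (ε ^ 2 / 32 * ((K : ℝ) + 1) ^ 2) ^ 2 * n ^ (c * θ i) ≤ X i K ^ 2 := by
    intro i
    have h1 := hX i K hcond
    have h2 : n ^ (c * θ i / 2) ≤ (p : ℝ) ^ (2 * (1 - ε) * K * θ i) := by
      rw [Real.rpow_def_of_pos hn0, Real.rpow_def_of_pos hp0]
      apply Real.exp_le_exp.2
      have h3 : c / 2 * ℓ ≤ (1 - ε) * (2 * K * lam) := by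
        have h4 : (1 - ε) * ((1 - a / 4 - a / 8) * ℓ) ≤ (1 - ε) * (2 * K * lam) :=
          mul_le_mul_of_nonneg_left hKlow (by linarith)
        have h5 : c / 2 ≤ (1 - ε) * (1 - a / 4 - a / 8) := by
          have hc' : c / 2 = 1 - a := by rw [ha]; ring
          rw [hε, hc']
          have haa : 0 ≤ a * a := by positivity
          linarith
        have h6 : c / 2 * ℓ ≤ (1 - ε) * (1 - a / 4 - a / 8) * ℓ :=
          mul_le_mul_of_nonneg_right h5 hℓ0.le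
        linarith
      have h7 := mul_le_mul_of_nonneg_right h3 (hθ i)
      calc Real.log n * (c * θ i / 2) = c / 2 * ℓ * θ i := by rw [hℓ]; ring
        _ ≤ (1 - ε) * (2 * K * lam) * θ i := h7
        _ = Real.log p * (2 * (1 - ε) * K * θ i) := by rw [hlam]; ring
    have h3 : ε ^ 2 / 32 * ((K : ℝ) + 1) ^ 2 * n ^ (c * θ i / 2) ≤ X i K :=
      le_trans (mul_le_mul_of_nonneg_left h2 (by positivity)) h1
    have h4 := pow_le_pow_left₀ (by positivity) h3 2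
    refine le_trans (le_of_eq ?_) h4
    have h5 : n ^ (c * θ i) = (n ^ (c * θ i / 2)) ^ 2 := by
      rw [← Real.rpow_natCast (n ^ (c * θ i / 2)) 2, ← Real.rpow_mul hn0.le]
      congr 1
      push_cast
      ring
    rw [h5]
    ring
  have hlow2 : (ε ^ 2 / 32 * ((K : ℝ) + 1) ^ 2) ^ 2 * ∑ i, n ^ (c * θ i) ≤
      C * B * (n * ((K : ℝ) + 1) + W * n ^ (1 - η₀) * ((K : ℝ) + 1) ^ 3) := by
    rw [Finset.mul_sum]
    exact (Finset.sum_le_sum fun i _ => hlow i).trans hmain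
  -- the second term
  have hK1 : (0 : ℝ) < (K : ℝ) + 1 := by positivity
  have hKup : (K : ℝ) + 1 ≤ 2 * ℓ := by
    have h1 : 2 * lam * K ≤ 2 * lam * y := mul_le_mul_of_nonneg_left hKy (by positivity)
    have h2 : (K : ℝ) ≤ ℓ := by
      have h3 : 2 * lam * K ≤ ℓ := by
        rw [hy1] at h1
        have : 0 ≤ Real.log 4 := Real.log_nonneg (by norm_num)
        linarith
      have h4 : (K : ℝ) * 1 ≤ K * (2 * lam) :=
        mul_le_mul_of_nonneg_left (by linarith) (Nat.cast_nonneg K)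
      linarith
    linarith
  have hn1 : 0 < n ^ (1 - η) := Real.rpow_pos_of_pos hn0 _
  have hsec : n ^ (1 - η₀) * ((K : ℝ) + 1) ^ 2 ≤ 8 / η ^ 2 * n ^ (1 - η) := by
    have h1 : n ^ (1 - η₀) = n ^ (1 - η) * Real.exp (-(η * ℓ)) := by
      rw [show 1 - η₀ = (1 - η) - η by rw [hηη]; ring, Real.rpow_sub hn0,
        Real.rpow_def_of_pos hn0 η, Real.exp_neg, div_eq_mul_inv, mul_comm η ℓ]
    have h2 : (η * ℓ) ^ 2 / 2 ≤ Real.exp (η * ℓ) := by
      have := Real.quadratic_le_exp_of_nonneg (x := η * ℓ) (by positivity)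
      linarith [mul_pos hη hℓ0]
    have h3 : ((K : ℝ) + 1) ^ 2 ≤ (2 * ℓ) ^ 2 := pow_le_pow_left₀ hK1.le hKup 2
    rw [h1]
    have h4 : Real.exp (-(η * ℓ)) * (2 * ℓ) ^ 2 ≤ 8 / η ^ 2 := by
      rw [Real.exp_neg, inv_mul_le_iff₀ (Real.exp_pos _)]
      rw [show Real.exp (η * ℓ) * (8 / η ^ 2) = (8 * Real.exp (η * ℓ)) / η ^ 2 by ring,
        le_div_iff₀ (by positivity)]
      linarith
    calc n ^ (1 - η) * Real.exp (-(η * ℓ)) * ((K : ℝ) + 1) ^ 2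
        ≤ n ^ (1 - η) * Real.exp (-(η * ℓ)) * (2 * ℓ) ^ 2 :=
          mul_le_mul_of_nonneg_left h3 (by positivity)
      _ = n ^ (1 - η) * (Real.exp (-(η * ℓ)) * (2 * ℓ) ^ 2) := by ring
      _ ≤ n ^ (1 - η) * (8 / η ^ 2) := mul_le_mul_of_nonneg_left h4 hn1.le
      _ = 8 / η ^ 2 * n ^ (1 - η) := by ring
  obtain ⟨M, hM⟩ : ∃ M : ℝ, M = B * (n + W * n ^ (1 - η)) := ⟨_, rfl⟩
  have hM0 : 0 ≤ M := by rw [hM]; positivity
  have hup : C * B * (n * ((K : ℝ) + 1) + W * n ^ (1 - η₀) * ((K : ℝ) + 1) ^ 3) ≤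
      C * (1 + 8 / η ^ 2) * M * ((K : ℝ) + 1) := by
    have h1 : W * n ^ (1 - η₀) * ((K : ℝ) + 1) ^ 3 ≤
        W * (8 / η ^ 2 * n ^ (1 - η)) * ((K : ℝ) + 1) := by
      calc W * n ^ (1 - η₀) * ((K : ℝ) + 1) ^ 3 =
            W * (n ^ (1 - η₀) * ((K : ℝ) + 1) ^ 2) * ((K : ℝ) + 1) := by ring
        _ ≤ W * (8 / η ^ 2 * n ^ (1 - η)) * ((K : ℝ) + 1) := by gcongr
    have h2 : 0 ≤ W * n ^ (1 - η) * ((K : ℝ) + 1) := by positivity
    have h3 : 0 ≤ 8 / η ^ 2 * (n * ((K : ℝ) + 1)) := by positivity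
    calc C * B * (n * ((K : ℝ) + 1) + W * n ^ (1 - η₀) * ((K : ℝ) + 1) ^ 3)
        ≤ C * B * ((1 + 8 / η ^ 2) * (n + W * n ^ (1 - η)) * ((K : ℝ) + 1)) := by
          apply mul_le_mul_of_nonneg_left _ (by positivity)
          linarith
      _ = C * (1 + 8 / η ^ 2) * M * ((K : ℝ) + 1) := by rw [hM]; ring
  have hfin := hlow2.trans hup
  set Sg := ∑ i, n ^ (c * θ i) with hSg
  have hS1 : Sg ≤ (32 / ε ^ 2) ^ 2 * (C * (1 + 8 / η ^ 2)) * M / ((K : ℝ) + 1) ^ 3 := by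
    rw [le_div_iff₀ (by positivity)]
    have h1 : (ε ^ 2 / 32) ^ 2 * (Sg * ((K : ℝ) + 1) ^ 3) ≤ C * (1 + 8 / η ^ 2) * M := by
      have h2 : (ε ^ 2 / 32) ^ 2 * (Sg * ((K : ℝ) + 1) ^ 3) * ((K : ℝ) + 1) ≤
          C * (1 + 8 / η ^ 2) * M * ((K : ℝ) + 1) := by
        refine le_trans (le_of_eq ?_) hfin
        ring
      exact le_of_mul_le_mul_right h2 hK1
    have h3 : Sg * ((K : ℝ) + 1) ^ 3 =
        (32 / ε ^ 2) ^ 2 * ((ε ^ 2 / 32) ^ 2 * (Sg * ((K : ℝ) + 1) ^ 3)) := by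
      field_simp
    rw [h3]
    calc (32 / ε ^ 2) ^ 2 * ((ε ^ 2 / 32) ^ 2 * (Sg * ((K : ℝ) + 1) ^ 3))
        ≤ (32 / ε ^ 2) ^ 2 * (C * (1 + 8 / η ^ 2) * M) :=
          mul_le_mul_of_nonneg_left h1 (by positivity)
      _ = (32 / ε ^ 2) ^ 2 * (C * (1 + 8 / η ^ 2)) * M := by ring
  have hK3 : ℓ / (4 * lam) ≤ (K : ℝ) + 1 := by
    rw [div_le_iff₀ (by positivity)]
    have h1 : 2 * lam * y ≤ 2 * lam * (K + 1) := mul_le_mul_of_nonneg_left hKy1.le (by positivity)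
    linarith
  have hK4 : (ℓ / (4 * lam)) ^ 3 ≤ ((K : ℝ) + 1) ^ 3 :=
    pow_le_pow_left₀ (by positivity) hK3 3
  calc Sg ≤ (32 / ε ^ 2) ^ 2 * (C * (1 + 8 / η ^ 2)) * M / ((K : ℝ) + 1) ^ 3 := hS1
    _ ≤ (32 / ε ^ 2) ^ 2 * (C * (1 + 8 / η ^ 2)) * M / (ℓ / (4 * lam)) ^ 3 :=
        div_le_div_of_nonneg_left (by positivity) (by positivity) hK4
    _ = 64 * ((32 / ε ^ 2) ^ 2 * (C * (1 + 8 / η ^ 2))) * M * (lam / ℓ) ^ 3 := by
        field_simp
        ring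
    _ = _ := by rw [hM]; ring

end Pool.Agent.H585.LP
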