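import Pool.Agent.H585.LP.P27
import Pool.Agent.H486.LP.Stm3

/-!
# The Hecke recursion, general sequences (`S_recX`)
-/

set_option autoImplicit false

open UpperHalfPlane MeasureTheory Metric ModularGroup CongruenceSubgroup
open scoped MatrixGroups ENNReal Modular Topology NNReal ComplexConjugate Real

namespace Pool.Agent.H585.LP

open Pool.Agent.N799.DT Pool.Agent.H486.LP

theorem q27 (h : S_req) (h8 : S_rep) : S_recX := by
  intro Γ N p hN hΓ hp hc f hf x hx0 hxr hyp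
  have hp0 : 0 < p := hp.pos
  have key : ∀ m : ℕ, (∀ S : Finset Mt, IsRep Γ N (p ^ m) S → ∀ z : ℍ,
      ∑ A ∈ S, f (sQ (p ^ m) A • z) = (((p : ℝ) ^ m * x m : ℝ) : ℂ) * f z) ∧
      (∀ S : Finset Mt, IsRep Γ N (p ^ (m + 1)) S → ∀ z : ℍ,
      ∑ A ∈ S, f (sQ (p ^ (m + 1)) A • z) =
        (((p : ℝ) ^ (m + 1) * x (m + 1) : ℝ) : ℂ) * f z) := by
    intro m
    induction m with
    | zero =>
      constructor
      · intro S hS z
        rw [pow_zero] at hS ⊢
        rw [base hΓ hS hf z, pow_zero, hx0]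
        simp
      · intro S hS z
        rw [zero_add, pow_one] at hS ⊢
        rw [pow_one]
        exact hyp S hS z
    | succ n ih =>
      refine ⟨ih.2, ?_⟩
      intro S hS z
      obtain ⟨S₁, h1⟩ := h8 Γ N p hN hΓ hp0 hc
      obtain ⟨S₂, h2⟩ := h8 Γ N (p ^ (n + 1)) hN hΓ (by positivity) (Nat.Coprime.pow_left _ hc)
      have hst := step h hN hΓ hp hc (Nat.le_add_left 1 n) hf h1 h2 hS z
      have e1 : ∑ A ∈ S₁, ∑ B ∈ S₂, f (sQ (p ^ (n + 1)) B • sQ p A • z) =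
          (((p : ℝ) ^ (n + 1) * x (n + 1) : ℝ) : ℂ) *
            ((((p : ℝ) * x 1 : ℝ) : ℂ) * f z) := by
        rw [← hyp S₁ h1 z, Finset.mul_sum]
        refine Finset.sum_congr rfl fun A _ => ?_
        exact ih.2 S₂ h2 _
      have e2 : ∑ C ∈ S.filter (dv (p : ℤ)), f (sQ (p ^ (n + 1 + 1)) C • z) =
          (((p : ℝ) ^ (n + 1) * x (n + 1) : ℝ) : ℂ) * f z := by
        have hpe : p ^ (n + 1 + 1) = p * p ^ (n + 1) := by ring
        rw [hpe] at hS ⊢
        rw [← sum_div hp0 (by positivity) (fun A hA => (hS.sub A hA).1) f z]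
        exact ih.2 _ (isRep_div hp0 hc hS) z
      have e3 : ∑ C ∈ S.filter (dv ((p : ℤ) ^ 2)), f (sQ (p ^ (n + 1 + 1)) C • z) =
          (((p : ℝ) ^ n * x n : ℝ) : ℂ) * f z := by
        have hpe : p ^ (n + 1 + 1) = p ^ 2 * p ^ n := by ring
        have hpz : ((p : ℤ) ^ 2) = ((p ^ 2 : ℕ) : ℤ) := by push_cast; rfl
        rw [hpe] at hS ⊢
        rw [hpz]
        rw [← sum_div (d := p ^ 2) (by positivity) (by positivity)
          (fun A hA => (hS.sub A hA).1) f z]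
        exact ih.1 _ (isRep_div (d := p ^ 2) (by positivity) (Nat.Coprime.pow_left 2 hc) hS) z
      rw [e1, e2, e3] at hst
      have hx' : (((p : ℝ) ^ (n + 1 + 1) * x (n + 1 + 1) : ℝ) : ℂ) =
          (((p : ℝ) ^ (n + 1) * x (n + 1) : ℝ) : ℂ) * (((p : ℝ) * x 1 : ℝ) : ℂ) -
          (p : ℂ) * (((p : ℝ) ^ (n + 1) * x (n + 1) : ℝ) : ℂ) -
          (p : ℂ) ^ 2 * (((p : ℝ) ^ n * x n : ℝ) : ℂ) := by
        rw [show n + 1 + 1 = n + 2 by ring, hxr n]
        push_cast
        ring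
      rw [hx']
      linear_combination (-1 : ℂ) * hst
  intro m S hS z
  exact (key m).1 S hS z

end Pool.Agent.H585.LP
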